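import Pool.Agent.Q192.QD.Iso
import Pool.Agent.Y120.A.All

/-!
# The modular Schanuel conjecture for the isogeny classes of almost all tuples of algebraic invariants

Let `j` be the modular invariant, `v_1, …, v_k` points of the upper half-plane for which the numbers `α_i = j(v_i)` are
algebraic, and `z_i = (a_i v_i + b_i) / (c_i v_i + d_i)` any points equivalent to them under `GL_2^+(ℚ)`. The numbers `j(z_i)`
are algebraic; unless `z_i` is a CM point or two of the points are equivalent, the modular Schanuel conjecture predicts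
that `z_1, …, z_k` are algebraically independent.

Let `Z_m(T)` be the set of all algebraic integers of degree at most `m` whose conjugates have absolute value at most `T`.
We prove that for all `q`, `k`, `m`, `d`, `δ` there are `c > 0` and `C` such that for all complex numbers `w_1, …, w_q` and all
`T ≥ 1`, outside at most `C T^(-c) |Z_m(T)|^k` of the `k`-tuples `(α_1, …, α_k)` of elements of `Z_m(T)`, for **all** points
`z_i` equivalent to points `v_i` with `j(v_i) = α_i` (there is no bound for the degrees of the isogenies, or for the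
coefficients of the matrices) every relation of degree at most `δ` between `z_1, …, z_k`, with coefficients which are
polynomials in `2 π i, w_1, …, w_q` over a number field of degree at most `d` (any number field, of any height), is trivial:
the polynomial is zero after the substitution of the numbers `2 π i, w_1, …, w_q`. In particular (`q = 0`) `z_1, …, z_k` and
`π` satisfy no relation of degree at most `δ` over any number field of degree at most `d`.

`IsogenyClasses` is a theorem of this kind for rational integers `α_i`. Here the invariants are algebraic, each in its own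
number field of degree at most `m`; the abelian varieties of the problem, elliptic curves with invariants `j(z_i)`, are
defined over fields of arbitrarily large degree.

Proof. By the theorem on the numbers `v_i`, `j'(v_i)`, `j''(v_i)` for almost all tuples of algebraic integral invariants
(`Pool.Agent.Y120.A`, on the library of G-functions at algebraic points) and fractional linear substitutions, which
multiply the degree of a relation by a bounded factor only.
-/

set_option autoImplicit false

namespace Pool.Agent.Results.MP_47914d_nt.AlgebraicIsogenyClasses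

/-- the normalised Eisenstein series of weight `4` -/
noncomputable def E4 (τ : ℂ) : ℂ :=
  1 + 240 * ∑' m : ℕ, ((ArithmeticFunction.sigma 3 (m + 1) : ℕ) : ℂ) *
    Complex.exp (2 * (Real.pi : ℂ) * Complex.I * ((m : ℂ) + 1) * τ)

/-- the normalised Eisenstein series of weight `6` -/
noncomputable def E6 (τ : ℂ) : ℂ :=
  1 - 504 * ∑' m : ℕ, ((ArithmeticFunction.sigma 5 (m + 1) : ℕ) : ℂ) *
    Complex.exp (2 * (Real.pi : ℂ) * Complex.I * ((m : ℂ) + 1) * τ)

/-- the modular invariant `j = q⁻¹ + 744 + 196884 q + ⋯` -/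
noncomputable def J (τ : ℂ) : ℂ := 1728 * E4 τ ^ 3 / (E4 τ ^ 3 - E6 τ ^ 2)

/-- `z` is equivalent under `GL_2^+(ℚ)` to a point `v` of the upper half-plane with `j(v) = α`. -/
def Isogenous (α z : ℂ) : Prop :=
  ∃ v : ℂ, 0 < v.im ∧ J v = α ∧ ∃ a b c d : ℚ, 0 < a * d - b * c ∧ z = ((a : ℂ) * v + b) / ((c : ℂ) * v + d)

/-- The algebraic integers of degree at most `m` all of whose conjugates have absolute value at most `T`. -/
def Z (m T : ℕ) : Set ℂ :=
  {ξ | IsIntegral ℤ ξ ∧ (minpoly ℚ ξ).natDegree ≤ m ∧ ∀ z : ℂ, Polynomial.aeval z (minpoly ℚ ξ) = 0 → ‖z‖ ≤ T}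

/-- The numbers `2 π i, w_1, …, w_q`. -/
noncomputable def constants {q : ℕ} (w : Fin q → ℂ) : Option (Fin q) → ℂ := fun o => o.elim (2 * Real.pi * Complex.I) w

/-- The numbers `2 π i, w_1, …, w_q` and `k` variables. -/
noncomputable def generic {q k : ℕ} (w : Fin q → ℂ) : Option (Fin q) ⊕ Fin k → MvPolynomial (Fin k) ℂ :=
  Sum.elim (fun o => MvPolynomial.C (constants w o)) MvPolynomial.X

/-- For some points `z_i` equivalent to points with the invariants `α_i` some polynomial of degree at most `δ` over a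
number field of degree at most `d` vanishes at `2 π i, w_1, …, w_q, z_1, …, z_k`, but not after the substitution of
`2 π i, w_1, …, w_q` only. -/
def Exceptional (δ d : ℕ) {q k : ℕ} (w : Fin q → ℂ) (α : Fin k → ℂ) : Prop :=
  ∃ z : Fin k → ℂ, (∀ i, Isogenous (α i) (z i)) ∧
    ∃ K : IntermediateField ℚ ℂ, FiniteDimensional ℚ K ∧ Module.finrank ℚ K ≤ d ∧
    ∃ P : MvPolynomial (Option (Fin q) ⊕ Fin k) K, P.totalDegree ≤ δ ∧
      MvPolynomial.aeval (Sum.elim (constants w) z) P = 0 ∧ MvPolynomial.aeval (generic (k := k) w) P ≠ 0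

lemma J_eq : J = Pool.Agent.TH21.MS.jj := by
  have h4 : E4 = Pool.Agent.TH21.MS.E4 := funext Pool.Agent.Y120.J.E4_same
  have h6 : E6 = Pool.Agent.TH21.MS.E6 := funext Pool.Agent.Y120.J.E6_same
  funext τ
  unfold J Pool.Agent.TH21.MS.jj
  rw [h4, h6]

lemma constants_eq {q : ℕ} (w : Fin q → ℂ) : constants w = Pool.Agent.Y120.K.wo w := by
  funext o
  rcases o with _ | o <;> rfl

lemma exc {δ d q k : ℕ} {w : Fin q → ℂ} {α : Fin k → ℂ} (h : Exceptional δ d w α) :
    Pool.Agent.Y120.A.ExcJ (Fintype.card (Option (Fin q)) * (δ * 1) + Fintype.card (Fin k) * (δ * 1)) d w α := by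
  obtain ⟨z, hz, K, hK, hKd, P, hP, hP0, hPg⟩ := h
  choose v hv hvn a b c e hdet hzv using hz
  rw [constants_eq] at hP0
  have hne : ∃ u, MvPolynomial.aeval (Sum.elim (Pool.Agent.Y120.K.wo w) u) P ≠ 0 := by
    by_contra hcon
    push Not at hcon
    apply hPg
    have h2 : MvPolynomial.aeval (generic (k := k) w) P = Pool.Agent.Y120.K.fr w P := by
      unfold generic Pool.Agent.Y120.K.fr
      rw [constants_eq]
    rw [h2]
    apply MvPolynomial.funext
    intro u
    rw [map_zero, Pool.Agent.Y120.K.fr_eval]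
    exact hcon u
  obtain ⟨P', h1, h2, h3⟩ := Q192.QD.iso_step w (fun i => ⟨v i, hv i⟩) z
    (fun i => ⟨a i, b i, c i, e i, (hdet i).ne', hzv i⟩) P hP hP0 hne
  refine ⟨fun i => ⟨v i, hv i⟩, fun i => ?_, K, hK, hKd, P', h1, h2, h3⟩
  have h4 := hvn i
  rw [J_eq] at h4
  exact h4

/-- For all `q`, `k`, `m ≥ 1`, `d`, `δ` there are `c > 0` and `C` such that for all `w_1, …, w_q` and all `T ≥ 1` at most
`C T^(-c) |Z_m(T)|^k` of the `k`-tuples of elements of the finite set `Z_m(T)` are exceptional. -/
theorem result (q k m d δ : ℕ) (hm : 1 ≤ m) : ∃ c : ℝ, 0 < c ∧ ∃ C : ℝ, 0 ≤ C ∧ ∀ (w : Fin q → ℂ) (T : ℕ), 1 ≤ T →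
    (Z m T).Finite ∧ ({α : Fin k → ℂ | (∀ i, α i ∈ Z m T) ∧ Exceptional δ d w α}.ncard : ℝ) ≤
      C * (T : ℝ) ^ (-c) * ((Z m T).ncard : ℝ) ^ k := by
  obtain ⟨c, hc, C, hC, h⟩ := Pool.Agent.Y120.A.tupP Pool.Agent.Y120.A.hvcj Pool.Agent.Y120.A.hirr q k m d
    (Fintype.card (Option (Fin q)) * (δ * 1) + Fintype.card (Fin k) * (δ * 1)) hm
  refine ⟨c, hc, C, hC, fun w T hT => ?_⟩
  obtain ⟨h1, h2⟩ := h w T hT
  refine ⟨h1, le_trans ?_ h2⟩
  have hsub : {α : Fin k → ℂ | (∀ i, α i ∈ Z m T) ∧ Exceptional δ d w α} ⊆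
      {α : Fin k → ℂ | (∀ i, Pool.Agent.Y916.Sl.SInt m T (α i)) ∧ Pool.Agent.Y120.A.ExcJ
        (Fintype.card (Option (Fin q)) * (δ * 1) + Fintype.card (Fin k) * (δ * 1)) d w α} :=
    fun α hα => ⟨hα.1, exc hα.2⟩
  have hfin : {α : Fin k → ℂ | (∀ i, Pool.Agent.Y916.Sl.SInt m T (α i)) ∧ Pool.Agent.Y120.A.ExcJ
      (Fintype.card (Option (Fin q)) * (δ * 1) + Fintype.card (Fin k) * (δ * 1)) d w α}.Finite := by
    refine (Set.Finite.pi' fun _ : Fin k => h1).subset fun α hα => ?_
    exact hα.1
  exact_mod_cast Set.ncard_le_ncard hsub hfin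

end Pool.Agent.Results.MP_47914d_nt.AlgebraicIsogenyClasses
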