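import Pool.Agent.Q192.QD.Iso
import Pool.Agent.Y120.A.All

/-!
# The modular Schanuel conjecture for isogeny classes: distinct algebraic invariants in a window

Let `j` be the modular invariant, `v_1, …, v_k` points of the upper half-plane for which the numbers `α_i = j(v_i)` are
algebraic, and `z_i = (a_i v_i + b_i) / (c_i v_i + d_i)` any points equivalent to them under `GL_2^+(ℚ)`. The numbers `j(z_i)`
are algebraic; unless `z_i` is a CM point or two of the points are equivalent, the modular Schanuel conjecture predicts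
that `z_1, …, z_k` are algebraically independent.

We prove that there is an absolute constant `G₀` such that for all `G ≥ G₀` and all `q`, `k`, `m`, `d`, `δ`, `A` there is `E`
with the following property. Let `ξ` be **any algebraic number** of degree at most `m` (not necessarily an integer), which
is the zero of a polynomial with integral coefficients of absolute value at most `|ξ|^A`, and let `(H + 2)^E ≤ |ξ|`. Then for
all complex numbers `w_1, …, w_q` there is a set `S` of **at most `q + 2`** of the numbers `1, …, H` such that for **all**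
distinct `u_1, …, u_k` in `{1, …, H}` outside `S` and **all** points `z_i` equivalent to points `v_i` with
`j(v_i) = ξ - G u_i` (there is no bound for the degrees of the isogenies) every relation of degree at most `δ` between
`z_1, …, z_k`, with coefficients which are polynomials in `2 π i, w_1, …, w_q` over a number field of degree at most `d` (any
number field, it may contain `ξ`), is trivial: the polynomial is zero after the substitution of the numbers
`2 π i, w_1, …, w_q`. In particular (`q = 0`) outside two of the numbers `1, …, H` there is no relation of degree at most `δ`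
between `z_1, …, z_k` and `π`, over any number field of degree at most `d`, of any height.

`IsogenyWindows` is a theorem of this kind for rational integers; `AlgebraicIsogenyClasses` counts the exceptional tuples
of algebraic integers, here in a window around one algebraic number no tuple outside `S` is exceptional.

Proof. By the theorem on the numbers `v_i`, `j'(v_i)`, `j''(v_i)` in windows around algebraic numbers (`Pool.Agent.Y120.A`)
and fractional linear substitutions, which multiply the degree of a relation by a bounded factor only.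
-/

set_option autoImplicit false

namespace Pool.Agent.Results.MP_47914d_nt.AlgebraicIsogenyWindows

/-- the normalised Eisenstein series of weight `4` -/
noncomputable def E4 (τ : ℂ) : ℂ :=
  1 + 240 * ∑' m : ℕ, ((ArithmeticFunction.sigma 3 (m + 1) : ℕ) : ℂ) *
    Complex.exp (2 * (Real.pi : ℂ) * Complex.I * ((m : ℂ) + 1) * τ)

/-- the normalised Eisenstein series of weight `6` -/
noncomputable def E6 (τ : ℂ) : ℂ :=
  1 - 504 * ∑' m : ℕ, ((ArithmeticFunction.sigma 5 (m + 1) : ℕ) : ℂ) *
    Complex.exp (2 * (Real.pi : ℂ) * Complex.I * ((m : ℂ) + 1) * τ)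

/-- the modular invariant `j = q⁻¹ + 744 + 196884 q + ⋯` -/
noncomputable def J (τ : ℂ) : ℂ := 1728 * E4 τ ^ 3 / (E4 τ ^ 3 - E6 τ ^ 2)

/-- `z` is equivalent under `GL_2^+(ℚ)` to a point `v` of the upper half-plane with `j(v) = α`. -/
def Isogenous (α z : ℂ) : Prop :=
  ∃ v : ℂ, 0 < v.im ∧ J v = α ∧ ∃ a b c d : ℚ, 0 < a * d - b * c ∧ z = ((a : ℂ) * v + b) / ((c : ℂ) * v + d)

/-- `ξ` is a zero of a polynomial of degree at most `m` with integral coefficients of absolute value at most `|ξ|^A`. -/
def Height (m A : ℕ) (ξ : ℂ) : Prop :=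
  ∃ p : Polynomial ℤ, p ≠ 0 ∧ p.natDegree ≤ m ∧ (∀ j, |(p.coeff j : ℝ)| ≤ ‖ξ‖ ^ A) ∧ Polynomial.aeval ξ p = 0

/-- The numbers `2 π i, w_1, …, w_q`. -/
noncomputable def constants {q : ℕ} (w : Fin q → ℂ) : Option (Fin q) → ℂ := fun o => o.elim (2 * Real.pi * Complex.I) w

/-- The numbers `2 π i, w_1, …, w_q` and `k` variables. -/
noncomputable def generic {q k : ℕ} (w : Fin q → ℂ) : Option (Fin q) ⊕ Fin k → MvPolynomial (Fin k) ℂ :=
  Sum.elim (fun o => MvPolynomial.C (constants w o)) MvPolynomial.X

lemma J_eq : J = Pool.Agent.TH21.MS.jj := by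
  have h4 : E4 = Pool.Agent.TH21.MS.E4 := funext Pool.Agent.Y120.J.E4_same
  have h6 : E6 = Pool.Agent.TH21.MS.E6 := funext Pool.Agent.Y120.J.E6_same
  funext τ
  unfold J Pool.Agent.TH21.MS.jj
  rw [h4, h6]

lemma constants_eq {q : ℕ} (w : Fin q → ℂ) : constants w = Pool.Agent.Y120.K.wo w := by
  funext o
  rcases o with _ | o <;> rfl

/-- There is `G₀` such that for all `G ≥ G₀` and all `q`, `k`, `m`, `d`, `δ`, `A` there is `E` such that for all `H`, all
algebraic `ξ` with `Height m A ξ` and `(H + 2)^E ≤ |ξ|` and all `w_1, …, w_q` there is a set `S` of at most `q + 2` numbers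
such that for all distinct `u_1, …, u_k` in `{1, …, H}` outside `S` and all `z_i` isogenous to points with invariants
`ξ - G u_i` every polynomial `P` of degree at most `δ` over a number field `K` of degree at most `d` which vanishes at
`2 π i, w_1, …, w_q, z_1, …, z_k` is zero after the substitution of `2 π i, w_1, …, w_q`. -/
theorem result : ∃ G₀ : ℕ, 1 ≤ G₀ ∧ ∀ G : ℕ, G₀ ≤ G → ∀ q k m d δ A : ℕ, ∃ E : ℕ, ∀ (H : ℕ) (ξ : ℂ),
    ((H : ℝ) + 2) ^ E ≤ ‖ξ‖ → Height m A ξ → ∀ w : Fin q → ℂ, ∃ S : Finset ℕ, S.card ≤ q + 2 ∧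
    ∀ u : Fin k → ℕ, Function.Injective u → (∀ i, 1 ≤ u i ∧ u i ≤ H ∧ u i ∉ S) →
    ∀ z : Fin k → ℂ, (∀ i, Isogenous (ξ - ((G * u i : ℕ) : ℂ)) (z i)) →
    ∀ K : IntermediateField ℚ ℂ, FiniteDimensional ℚ K → Module.finrank ℚ K ≤ d →
    ∀ P : MvPolynomial (Option (Fin q) ⊕ Fin k) K, P.totalDegree ≤ δ →
      MvPolynomial.aeval (Sum.elim (constants w) z) P = 0 → MvPolynomial.aeval (generic (k := k) w) P = 0 := by
  obtain ⟨G₀, hG₀, h⟩ := Pool.Agent.Y120.A.winJ Pool.Agent.Y120.A.hvcj Pool.Agent.Y120.A.hirr
  refine ⟨G₀, hG₀, fun G hG q k m d δ A => ?_⟩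
  obtain ⟨E, hE⟩ := h G hG q k m d (Fintype.card (Option (Fin q)) * (δ * 1) + Fintype.card (Fin k) * (δ * 1)) A
  refine ⟨E, fun H ξ hξ hHt w => ?_⟩
  obtain ⟨S, hS, hS'⟩ := hE H ξ hξ hHt w
  refine ⟨S, hS, fun u hu hub z hz K hK hKd P hP hP0 => ?_⟩
  choose v hv hvn a b c e hdet hzv using hz
  rw [constants_eq] at hP0
  by_contra hPg
  have hne : ∃ u, MvPolynomial.aeval (Sum.elim (Pool.Agent.Y120.K.wo w) u) P ≠ 0 := by
    by_contra hcon
    push Not at hcon
    apply hPg
    have h2 : MvPolynomial.aeval (generic (k := k) w) P = Pool.Agent.Y120.K.fr w P := by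
      unfold generic Pool.Agent.Y120.K.fr
      rw [constants_eq]
    rw [h2]
    apply MvPolynomial.funext
    intro u
    rw [map_zero, Pool.Agent.Y120.K.fr_eval]
    exact hcon u
  obtain ⟨P', h1, h2, y, h3⟩ := Q192.QD.iso_step w (fun i => ⟨v i, hv i⟩) z
    (fun i => ⟨a i, b i, c i, e i, (hdet i).ne', hzv i⟩) P hP hP0 hne
  exact h3 (hS' u hu hub (fun i => ⟨v i, hv i⟩) (fun i => by
    have h1 := hvn i
    rw [J_eq] at h1
    exact h1) K hK hKd P' h1 h2 y)

end Pool.Agent.Results.MP_47914d_nt.AlgebraicIsogenyWindows
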