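import Mathlib
import Pool.Agent.Q51.Sch.ModJ
import Pool.Agent.Q51.Sch.Trdeg

/-!
# The modular Schanuel conjecture is a statement on real numbers

Let `j` be the modular invariant. The modular Schanuel conjecture says that for pairwise inequivalent (under
`GL₂⁺(ℚ)`) points `z₁, …, z_n` of the upper half plane which are not CM points the transcendence degree
of `ℚ (z_i, j(z_i))` is at least `n`. We prove that it is equivalent to the following statement on real numbers:

for all points `x₁, …, x_r` of the upper half plane and all points `w₁, …, w_s` of the circles `|w|² = m`,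
`m = 1, 2, 3, …`, such that the `2 r + s` points `x_i`, `-x̄_i`, `w_k` are not CM points and pairwise inequivalent,

  `trdeg ℚ (Re x_i, Im x_i, Re j(x_i), Im j(x_i), Re w_k, Re j(w_k), Im j(w_k)) ≥ 2 r + s`.

Moreover one may assume in addition that the `2 r + s` points represent the orbits of a given finite set of points
`z` for which `z` and `j(z)` are algebraically dependent, for instance of points which are algebraic of
degree at least three or have an algebraic modular invariant.

Proof. For a finite set `T` of orbits let `δ (T)` be the transcendence degree of the numbers `z`, `j(z)` for all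
points `z` of the orbits of `T`, minus the number of elements of `T`. By the modular equations
(`Pool.Agent.H294ZP`) the transcendence degree is that of representatives, and so `δ` is submodular. The reflection
`z ↦ -z̄` changes `z`, `j(z)` into `-z̄` and the complex conjugate of `j(z)` and does not change `δ`. If `δ (T) < 0`, then `δ` is
negative at the union or at the intersection of `T` and its reflection, and these are symmetric. An orbit is stable
under the reflection exactly if it contains a point of one of the circles: `-z̄ = (a z + b) / (c z + d)` gives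
`a = d` and `c |z|² + 2 a Re z + b = 0`, a geodesic whose equation has rational coefficients, and these are equivalent to the
circles `|w|² = m`.
-/

set_option autoImplicit false

open Set UpperHalfPlane ModularForm

namespace Pool.Agent.Results.MP_47914d_nt.RealNumbers

/-- the modular invariant `j = E₄³ / Δ = q⁻¹ + 744 + 196884 q + ⋯`, `j(i) = 1728` -/
noncomputable def j (z : ℍ) : ℂ := E₄ z ^ 3 / discriminant z

/-- `w = (a z + b) / (c z + d)` for a rational matrix with positive determinant -/
def Equivalent (z w : ℍ) : Prop :=
  ∃ a b c d : ℚ, 0 < a * d - b * c ∧ (w : ℂ) * ((c : ℂ) * z + d) = (a : ℂ) * z + b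

/-- CM points -/
def IsCM (z : ℍ) : Prop :=
  ∃ a b c : ℤ, (a ≠ 0 ∨ b ≠ 0 ∨ c ≠ 0) ∧ (a : ℂ) * (z : ℂ) ^ 2 + b * z + c = 0

/-- the reflection `z ↦ -z̄` -/
def reflection (z : ℍ) : ℍ := ⟨-(starRingEnd ℂ) (z : ℂ), by simpa using z.im_pos⟩

/-- the `2 r + s` points `x_i`, `-x̄_i`, `w_k` -/
def family {r s : ℕ} (x : Fin r → ℍ) (w : Fin s → ℍ) : Fin r ⊕ Fin r ⊕ Fin s → ℍ :=
  Sum.elim x (Sum.elim (fun i => reflection (x i)) w)

/-- `n` is at most the transcendence degree over `ℚ` of the field generated by the set `X` -/
def AtLeast (K : Type) [Field K] [Algebra ℚ K] (n : ℕ) (X : Set K) : Prop :=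
  (n : Cardinal) ≤ Algebra.trdeg ℚ (IntermediateField.adjoin ℚ X)

/-- **The modular Schanuel conjecture is a statement on real numbers.** Let `L` be any finite set of points `z`
of the upper half plane which are not CM points, such that `z` and `j(z)` are algebraically dependent. The
modular Schanuel conjecture holds if and only if for all points `x₁, …, x_r` of the upper half plane and all
points `w₁, …, w_s` of the circles `|w|² = m`, `m = 1, 2, 3, …`, such that the points `x_i`, `-x̄_i`, `w_k` are not CM
points, pairwise inequivalent, and represent the orbits of all points of `L`, the transcendence degree of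
the field generated by the real numbers `Re x_i`, `Im x_i`, `Re j(x_i)`, `Im j(x_i)`, `Re w_k`, `Re j(w_k)`, `Im j(w_k)` is at
least `2 r + s`. -/
theorem result (L : Finset ℍ) (hL : ∀ z ∈ L, ¬ IsCM z ∧ ¬ AlgebraicIndependent ℚ ![(z : ℂ), j z]) :
    (∀ (n : ℕ) (z : Fin n → ℍ), (∀ i, ¬ IsCM (z i)) → (∀ i k, i ≠ k → ¬ Equivalent (z i) (z k)) →
      AtLeast ℂ n (⋃ i, {(z i : ℂ), j (z i)})) ↔
    (∀ (r s : ℕ) (x : Fin r → ℍ) (w : Fin s → ℍ), (∀ i, ¬ IsCM (family x w i)) →
      (∀ k, ∃ m : ℕ, 0 < m ∧ Complex.normSq (w k : ℂ) = m) →
      (∀ i k, i ≠ k → ¬ Equivalent (family x w i) (family x w k)) →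
      (∀ z ∈ L, ∃ i, Equivalent z (family x w i)) →
      AtLeast ℝ (2 * r + s)
        ((⋃ i, {(x i : ℂ).re, (x i : ℂ).im, (j (x i)).re, (j (x i)).im}) ∪
          (⋃ k, {(w k : ℂ).re, (j (w k)).re, (j (w k)).im}))) := by
  have h := Pool.Agent.Q51.Sch.Mod.main1 L hL
  simp only [← Pool.Agent.Q51.Sch.atLeast_iff] at h
  exact h

end Pool.Agent.Results.MP_47914d_nt.RealNumbers
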