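import Pool.Agent.Q192.MS.Tree

/-!
# The modular Schanuel conjecture: trees of iterates of `y ↦ j (i s y)`

Since `j (i y)` is real and positive for `y > 0`, the modular function can be iterated: from `x > 0` and positive numbers
`s_0 < s_1 < … < s_p` we get the numbers `y = j (i s_k x)`, then the numbers `j (i s_l y)`, and so on. The nodes of this
`(p + 1)`-ary tree are numbered `y_0 = x`, `y_(n+1) = j (i s_k y_m)` with `n = (p + 1) m + k`, `0 ≤ k ≤ p`. This is the
modular analogue of the numbers `e^(β_k)`, `e^(β_l e^(β_k))`, …. For algebraic `x` and algebraic `s_k` which are linearly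
independent over `ℚ` the modular Schanuel conjecture, applied to the points `z = i s_k y_m`, `m < N` (if these are not CM
points and pairwise inequivalent), says that the `(p + 1) N` numbers `y_1, …, y_((p+1) N)` are algebraically
independent: they are the values `j (z)`, and they generate with the `s_k` and `x` all the points `z`.

Let the positive real numbers `s_k` be linearly independent over `ℚ`. We prove that the iterates satisfy the conjecture in
bounded degree for almost all `n`-tuples `(x_1, …, x_n)` of elements of number fields: apart from `C T^ε N_T^(n-1)`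
exceptional tuples, `N_T` the number of elements of `F` of height at most `T` with (real) image in `[a, b]`, the numbers
`log x_l`, `x_l ^ σ_i` (`1, σ_1, …, σ_r` linearly independent over `ℚ`) and `exp (-2πi z)`, `j (z)`, `j' (z)`, `j'' (z)` at all
points `z = i s_k y_m (x_l)`, `m < N`, of the trees with roots `x_l` satisfy no relation (even an approximate one) of degree
at most `d` in each variable whose coefficients are combinations of arbitrary complex numbers `ξ_1, …, ξ_g` with integral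
elements of `F` of size at most `T^A` as coefficients. The constants are uniform in the `ξ_i` and in `F`, `[F : ℚ] ≤ m`.

Proof. On the real line every node is much larger than the preceding ones (`j (i y) ~ e^(2 π y)`), so the functions
`s_k y_m (t)` form a tower in the sense of `Pool.Agent.Q192.MS.Tw`; lower bounds near infinity for polynomials in the
functions of a tower (`Pool.Agent.TH21.MS.LB_block`), and the counting theorem of `Pool.Agent.Y124`.
-/

set_option autoImplicit false

open Set Filter NumberField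

namespace Pool.Agent.Results.MP_47914d_nt.TreesOfIterates

/-- the normalised Eisenstein series of weight `4` -/
noncomputable def E4 (τ : ℂ) : ℂ :=
  1 + 240 * ∑' m : ℕ, ((ArithmeticFunction.sigma 3 (m + 1) : ℕ) : ℂ) *
    Complex.exp (2 * (Real.pi : ℂ) * Complex.I * τ) ^ (m + 1)

/-- the normalised Eisenstein series of weight `6` -/
noncomputable def E6 (τ : ℂ) : ℂ :=
  1 - 504 * ∑' m : ℕ, ((ArithmeticFunction.sigma 5 (m + 1) : ℕ) : ℂ) *
    Complex.exp (2 * (Real.pi : ℂ) * Complex.I * τ) ^ (m + 1)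

/-- the modular invariant `j = q⁻¹ + 744 + 196884 q + ⋯` -/
noncomputable def j (τ : ℂ) : ℂ := 1728 * E4 τ ^ 3 / (E4 τ ^ 3 - E6 τ ^ 2)

/-- `exp (-2πi z), j (z), j' (z), j'' (z)` (complex derivatives) -/
noncomputable def jet (z : ℂ) : Fin 4 → ℂ :=
  ![Complex.exp (-(2 * (Real.pi : ℂ) * Complex.I * z)), j z, deriv j z, deriv (deriv j) z]

/-- The nodes of the tree: `y_0 = x`, and `y_(n+1) = j (i s_k y_m)` for `m = n / (p + 1)`, `k = n mod (p + 1)`. -/
noncomputable def node {p : ℕ} (s : Fin (p + 1) → ℝ) : ℕ → ℂ → ℂ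
  | 0, x => x
  | n + 1, x => j (Complex.I * (s (Fin.ofNat (p + 1) n) * node s (n / (p + 1)) x))
  decreasing_by exact Nat.lt_succ_of_le (Nat.div_le_self _ _)

/-- the numbers `log x`, `x ^ σ_i`, and `exp (-2πi z)`, `j (z)`, `j' (z)`, `j'' (z)` at the points `z = i s_k y_m (x)`,
`m < N` -/
noncomputable def numbers {r p N : ℕ} (σ : Fin r → ℝ) (s : Fin (p + 1) → ℝ) (x : ℂ) :
    Option (Fin r) ⊕ (Fin N × (Fin (p + 1) × Fin 4)) → ℂ
  | Sum.inl none => Complex.log x
  | Sum.inl (some i) => x ^ (σ i : ℂ)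
  | Sum.inr (m, k, q) => jet (Complex.I * (s k * node s m x)) q

/-- The elements of the number field `F` with image in the real interval `[a, b]` which are quotients of two integers
of `F` all of whose conjugates have absolute value at most `T`. -/
def Points (F : Type) [Field F] [NumberField F] (ι : F →+* ℂ) (a b T : ℝ) : Set F :=
  {x | (∃ t : ℝ, a ≤ t ∧ t ≤ b ∧ (t : ℂ) = ι x) ∧
    ∃ u v : 𝓞 F, v ≠ 0 ∧ (∀ φ : F →+* ℂ, ‖φ u‖ ≤ T ∧ ‖φ v‖ ≤ T) ∧ x = u / v}

/-- The `n`-tuples `x` of points of `F` for which there is a polynomial `P` of degree at most `d` in each variable, with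
coefficients of the form `∑ ξ_i ι(c_i)`, where the `c_i` are integers of `F` all of whose conjugates have absolute value
at most `T ^ A`, such that the value of `P` at all the `numbers` of `x_1, …, x_n` is at most `T ^ (-B)` times the absolute
value of some nonzero coefficient of `P`. -/
def Exceptional {r p : ℕ} (N n d : ℕ) {g : ℕ} (σ : Fin r → ℝ) (s : Fin (p + 1) → ℝ) (F : Type) [Field F]
    [NumberField F] (ι : F →+* ℂ) (ξ : Fin g → ℂ) (a b A B T : ℝ) : Set (Fin n → F) :=
  {x | (∀ l, x l ∈ Points F ι a b T) ∧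
    ∃ P : MvPolynomial (Fin n × (Option (Fin r) ⊕ (Fin N × (Fin (p + 1) × Fin 4)))) ℂ, (∀ y, P.degreeOf y ≤ d) ∧
    (∀ e, ∃ c : Fin g → 𝓞 F, (∀ i (φ : F →+* ℂ), ‖φ (c i)‖ ≤ T ^ A) ∧ P.coeff e = ∑ i, ξ i * ι (c i)) ∧
    ∃ e₀, P.coeff e₀ ≠ 0 ∧
      ‖MvPolynomial.aeval (fun y => numbers σ s (ι (x y.1)) y.2) P‖ ≤ T ^ (-B) * ‖P.coeff e₀‖}

theorem j_eq : j = Pool.Agent.TH21.MS.jj := rfl

theorem node_eq {p : ℕ} (s : Fin (p + 1) → ℝ) (n : ℕ) (x : ℂ) : node s n x = Pool.Agent.Q192.MS.node s n x := by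
  induction n using Nat.strong_induction_on with
  | _ n ih =>
    cases n with
    | zero => rw [node, Pool.Agent.Q192.MS.node_zero]
    | succ n =>
      rw [node, Pool.Agent.Q192.MS.node_succ, ih _ (Pool.Agent.Q192.MS.div_lt_succ' n), j_eq]

theorem numbers_eq {r p N : ℕ} (σ : Fin r → ℝ) (s : Fin (p + 1) → ℝ) (x : ℂ)
    (q : Option (Fin r) ⊕ (Fin N × (Fin (p + 1) × Fin 4))) : numbers σ s x q =
    Pool.Agent.Q192.MS.num σ (fun (c : Fin N) (k : Fin (p + 1)) x => (s k : ℂ) * Pool.Agent.Q192.MS.node s c x) x q := by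
  rcases q with (_ | i) | ⟨m, k, q⟩
  · rfl
  · rfl
  · show jet (Complex.I * (s k * node s m x)) q = _
    rw [node_eq]
    rfl

/-- Let `0 < s_0 < … < s_p` be linearly independent over `ℚ`, and `1, σ_1, …, σ_r` as well. For all `N`, `n`, `d`, `m`, `g`,
`0 < a`, `b`, `A`, `ε > 0` there are `B`, `C`, `T₀` such that for every number field `F` of degree at most `m`, every embedding
of `F` in `ℂ`, all complex numbers `ξ_1, …, ξ_g` and all `T ≥ T₀` there are at most `C T^ε N_T^(n-1)` exceptional `n`-tuples,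
where `N_T` is the number of points. -/
theorem result {r p : ℕ} (N n d m g : ℕ) (a b A ε : ℝ) (ha : 0 < a) (hε : 0 < ε) (σ : Fin r → ℝ)
    (hσ : ∀ (c₀ : ℤ) (c : Fin r → ℤ), (c₀ : ℝ) + ∑ k, (c k : ℝ) * σ k = 0 → c₀ = 0 ∧ c = 0)
    (s : Fin (p + 1) → ℝ) (hs : ∀ k, 0 < s k) (hmono : StrictMono s)
    (hind : ∀ c : Fin (p + 1) → ℤ, ∑ k, (c k : ℝ) * s k = 0 → c = 0) :
    ∃ B C T₀ : ℝ, ∀ (F : Type) [Field F] [NumberField F], Module.finrank ℚ F ≤ m → ∀ (ι : F →+* ℂ)
      (ξ : Fin g → ℂ) (T : ℝ), T₀ ≤ T →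
      (Exceptional N n d σ s F ι ξ a b A B T).Finite ∧
        ((Exceptional N n d σ s F ι ξ a b A B T).ncard : ℝ) ≤
          C * T ^ ε * ((Points F ι a b T).ncard : ℝ) ^ (n - 1) := by
  obtain ⟨B, C, T₀, hC, hT₀, H⟩ := Pool.Agent.Q192.MS.tower_count n d m g a b A ε ha hε σ hσ _
    (Pool.Agent.Q192.MS.tree_tw s hs hmono hind N a ha)
  refine ⟨B, C, T₀, fun F _ _ hm ι ξ T hT => ?_⟩
  have hT0 : 0 ≤ T := by linarith
  have hP : Points F ι a b T = {x : F | Pool.Agent.Y120.HtLe F T x ∧ ι x ∈ Complex.ofReal '' Icc a b} := by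
    ext x
    constructor
    · rintro ⟨⟨t, h1, h2, h3⟩, u, v, hb, hab, hx⟩
      exact ⟨⟨u, v, hb, Pool.Agent.Y120.house_le F hT0 fun φ => (hab φ).1,
        Pool.Agent.Y120.house_le F hT0 fun φ => (hab φ).2, hx⟩, t, ⟨h1, h2⟩, h3⟩
    · rintro ⟨⟨u, v, hb, ha, hb', hx⟩, t, ⟨h1, h2⟩, h3⟩
      exact ⟨⟨t, h1, h2, h3⟩, u, v, hb, fun φ => ⟨(Pool.Agent.Y120.house_ge F _ φ).trans ha,
        (Pool.Agent.Y120.house_ge F _ φ).trans hb'⟩, hx⟩
  have key := H F hm ι ξ T hT (Exceptional N n d σ s F ι ξ a b A B T) (by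
    rintro x ⟨hx, P, hPd, hPc, s₀, hs₀, hs⟩
    refine ⟨fun l => ?_, P, hPd, hPc, s₀, hs₀, ?_⟩
    · have h1 := hx l
      rw [hP] at h1
      exact h1
    · simp only [numbers_eq] at hs
      exact hs)
  rw [hP]
  exact key

end Pool.Agent.Results.MP_47914d_nt.TreesOfIterates
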